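import Pool.Agent.N728.QL.Def

/-!
QL/SM: additive and multiplicative smoothing of a step function.
-/

open MeasureTheory intervalIntegral Set

namespace Pool.Agent.N558.QL

open Pool.Agent.N728.QL

lemma g0_meas {H σ : ℝ} (hH : 0 < H) {G0 : ℝ → ℝ}
    (hc : ∀ v v', ⌊(v - σ) / H⌋ = ⌊(v' - σ) / H⌋ → G0 v = G0 v') : Measurable G0 := by
  have h1 : G0 = (fun n : ℤ => G0 (σ + n * H)) ∘ (fun v : ℝ => ⌊(v - σ) / H⌋) := by
    funext v
    apply hc
    rw [show σ + (⌊(v - σ) / H⌋ : ℝ) * H - σ = ⌊(v - σ) / H⌋ * H by ring,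
      mul_div_cancel_right₀ _ hH.ne', Int.floor_intCast]
  rw [h1]
  exact (measurable_from_top).comp
    (Int.measurable_floor.comp ((measurable_id.sub_const σ).div_const H))

lemma ii_of_bdd {f : ℝ → ℝ} (hm : Measurable f) (hb : ∀ x, |f x| ≤ 1) (a b : ℝ) :
    IntervalIntegrable f volume a b := by
  refine IntervalIntegrable.mono_fun (g := f) (f := fun _ => (1 : ℝ)) intervalIntegrable_const
    hm.aestronglyMeasurable ?_
  exact Filter.Eventually.of_forall (fun x => by simpa using hb x)

lemma abs_int_le {f : ℝ → ℝ} {K : ℝ} (a b : ℝ) (hb : ∀ x ∈ Set.uIoc a b, |f x| ≤ K) :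
    |∫ x in a..b, f x| ≤ K * |b - a| := by
  have := intervalIntegral.norm_integral_le_of_norm_le_const (f := f) (a := a) (b := b) (C := K)
    (fun x hx => by simpa using hb x hx)
  simpa using this

/-- average over `[v, v+h]`. -/
noncomputable def avg (f : ℝ → ℝ) (h v : ℝ) : ℝ := (1 / h) * ∫ x in v..(v + h), f x

lemma avg_le {f : ℝ → ℝ} {h : ℝ} (hh : 0 < h) (hb : ∀ x, |f x| ≤ 1) (v : ℝ) :
    |avg f h v| ≤ 1 := by
  unfold avg
  rw [abs_mul, abs_of_pos (by positivity : (0 : ℝ) < 1 / h)]
  have h1 := abs_int_le (f := f) (K := 1) v (v + h) (fun x _ => hb x)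
  rw [add_sub_cancel_left, abs_of_pos hh, one_mul] at h1
  calc 1 / h * |∫ x in v..(v + h), f x| ≤ 1 / h * h := by gcongr
    _ = 1 := by field_simp

lemma avg_lip {f : ℝ → ℝ} {h : ℝ} (hh : 0 < h) (hm : Measurable f) (hb : ∀ x, |f x| ≤ 1)
    (v v' : ℝ) : |avg f h v - avg f h v'| ≤ 2 / h * |v - v'| := by
  unfold avg
  rw [← mul_sub, integral_interval_sub_interval_comm (ii_of_bdd hm hb _ _) (ii_of_bdd hm hb _ _)
    (ii_of_bdd hm hb _ _), abs_mul, abs_of_pos (by positivity : (0 : ℝ) < 1 / h)]
  have h1 := abs_int_le (f := f) (K := 1) v v' (fun x _ => hb x)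
  have h2 := abs_int_le (f := f) (K := 1) (v + h) (v' + h) (fun x _ => hb x)
  rw [show v' + h - (v + h) = v' - v by ring] at h2
  rw [one_mul, abs_sub_comm] at h1 h2
  have h3 := abs_sub (∫ x in v..v', f x) (∫ x in (v + h)..(v' + h), f x)
  calc 1 / h * |(∫ x in v..v', f x) - ∫ x in (v + h)..(v' + h), f x|
      ≤ 1 / h * (|v - v'| + |v - v'|) := by
        gcongr
        linarith
    _ = 2 / h * |v - v'| := by ring

lemma avg_zero {f : ℝ → ℝ} {h v : ℝ} (hh : 0 < h) (hz : ∀ x, v < x → x ≤ v + h → f x = 0) :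
    avg f h v = 0 := by
  unfold avg
  have h1 := abs_int_le (f := f) (K := 0) v (v + h) (fun x hx => by
    rw [Set.uIoc_of_le (by linarith)] at hx
    rw [hz x hx.1 hx.2]; simp)
  rw [zero_mul] at h1
  have h2 := abs_nonpos_iff.mp h1
  rw [h2, mul_zero]

lemma avg_const {f : ℝ → ℝ} {h v c : ℝ} (hh : 0 < h) (hz : ∀ x, v ≤ x → x < v + h → f x = c) :
    avg f h v = c := by
  unfold avg
  have h1 : (∫ x in v..(v + h), f x) = ∫ x in v..(v + h), c := by
    apply intervalIntegral.integral_congr_ae
    have h3 : ∀ᵐ x : ℝ, x ≠ v + h := by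
      rw [ae_iff]
      simp
    filter_upwards [h3] with x hx hx2
    rw [Set.uIoc_of_le (by linarith)] at hx2
    exact hz x hx2.1.le (lt_of_le_of_ne hx2.2 hx)
  rw [h1, intervalIntegral.integral_const]
  simp only [add_sub_cancel_left, smul_eq_mul]
  field_simp

/-- The centred average. -/
noncomputable def cav (F : ℝ → ℝ) (h s : ℝ) : ℝ := avg F h (s - h / 2)

lemma cav_int {F : ℝ → ℝ} {h : ℝ} (hh : 0 < h) (hF : Continuous F) (hb : ∀ x, |F x| ≤ 1)
    (s1 s2 : ℝ) : |∫ s in s1..s2, (F s - cav F h s)| ≤ h := by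
  have hii : ∀ a b, IntervalIntegrable F volume a b := fun a b => hF.intervalIntegrable a b
  set Φ : ℝ → ℝ := fun s => ∫ r in (0 : ℝ)..s, F r with hΦ
  have hΦd : ∀ a b, Φ b - Φ a = ∫ r in a..b, F r := by
    intro a b
    simp only [hΦ]
    rw [integral_interval_sub_left (hii _ _) (hii _ _)]
  have hΦc : Continuous Φ := by
    exact intervalIntegral.continuous_primitive (fun a b => hii a b) 0
  have hΦl : ∀ a b, |Φ b - Φ a| ≤ |b - a| := by
    intro a b
    rw [hΦd]
    have := abs_int_le (f := F) (K := 1) a b (fun x _ => hb x)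
    simpa using this
  have hcav : ∀ s, cav F h s = (1 / h) * (Φ (s + h / 2) - Φ (s - h / 2)) := by
    intro s
    unfold cav avg
    rw [hΦd]
    congr 2
    ring
  have hΦii : ∀ a b, IntervalIntegrable Φ volume a b := fun a b => hΦc.intervalIntegrable a b
  have hi1 : (∫ s in s1..s2, cav F h s)
      = (1 / h) * ((∫ r in (s2 - h / 2)..(s2 + h / 2), Φ r)
        - ∫ r in (s1 - h / 2)..(s1 + h / 2), Φ r) := by
    have e1 : (∫ s in s1..s2, cav F h s)
        = ∫ s in s1..s2, (1 / h) * (Φ (s + h / 2) - Φ (s - h / 2)) := by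
      apply intervalIntegral.integral_congr
      intro s _
      exact hcav s
    have c1 : Continuous (fun s : ℝ => Φ (s + h / 2)) :=
      hΦc.comp (continuous_id.add continuous_const)
    have c2 : Continuous (fun s : ℝ => Φ (s - h / 2)) :=
      hΦc.comp (continuous_id.sub continuous_const)
    rw [e1, intervalIntegral.integral_const_mul, intervalIntegral.integral_sub
      (c1.intervalIntegrable _ _) (c2.intervalIntegrable _ _),
      intervalIntegral.integral_comp_add_right (fun s => Φ s) (h / 2),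
      intervalIntegral.integral_comp_sub_right (fun s => Φ s) (h / 2)]
    rw [integral_interval_sub_interval_comm' (hΦii _ _) (hΦii _ _) (hΦii _ _)]
  have hpt : ∀ s, |(1 / h) * (∫ r in (s - h / 2)..(s + h / 2), Φ r) - Φ s| ≤ h / 2 := by
    intro s
    have e2 : (1 / h) * (∫ r in (s - h / 2)..(s + h / 2), Φ r) - Φ s
        = (1 / h) * ∫ r in (s - h / 2)..(s + h / 2), (Φ r - Φ s) := by
      rw [intervalIntegral.integral_sub (hΦii _ _) intervalIntegrable_const,
        intervalIntegral.integral_const, smul_eq_mul,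
        show s + h / 2 - (s - h / 2) = h by ring, mul_sub]
      congr 1
      field_simp
    rw [e2, abs_mul, abs_of_pos (by positivity : (0 : ℝ) < 1 / h)]
    have h4 := abs_int_le (f := fun r => Φ r - Φ s) (K := h / 2) (s - h / 2) (s + h / 2)
      (fun r hr => by
        rw [Set.uIoc_of_le (by linarith)] at hr
        refine (hΦl s r).trans ?_
        rw [abs_le]
        constructor <;> linarith [hr.1, hr.2])
    rw [show s + h / 2 - (s - h / 2) = h by ring, abs_of_pos hh] at h4
    calc 1 / h * |∫ r in (s - h / 2)..(s + h / 2), (Φ r - Φ s)| ≤ 1 / h * (h / 2 * h) := by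
          gcongr
      _ = h / 2 := by field_simp
  have hcc : Continuous (cav F h) := by
    have : cav F h = fun s => (1 / h) * (Φ (s + h / 2) - Φ (s - h / 2)) := by
      funext s; exact hcav s
    rw [this]
    exact continuous_const.mul ((hΦc.comp (by fun_prop)).sub (hΦc.comp (by fun_prop)))
  rw [intervalIntegral.integral_sub (hii _ _) (hcc.intervalIntegrable _ _), hi1, ← hΦd]
  have p1 := hpt s1
  have p2 := hpt s2
  rw [abs_le] at p1 p2 ⊢
  rw [mul_sub]
  constructor <;> linarith [p1.1, p1.2, p2.1, p2.2]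

theorem t_SM : S_SM := by
  refine ⟨8, by norm_num, ?_⟩
  intro B H δ ℓ σ G0 hB hH hHB hδ hδ2 hℓ hG0 hcell hsupp
  have hB0 : (0 : ℝ) < B := by linarith
  have hm : Measurable G0 := g0_meas hH hcell
  set d : ℝ := δ * H with hd
  have hd0 : 0 < d := by positivity
  have hdB : d ≤ B / 20 := by
    calc d = δ * H := rfl
      _ ≤ 1 / 2 * H := by gcongr
      _ ≤ B / 20 := by linarith
  have hℓ0 : 0 < ℓ := by linarith
  -- the first smoothing
  set G1 : ℝ → ℝ := avg G0 d with hG1
  have hG1b : ∀ v, |G1 v| ≤ 1 := avg_le hd0 hG0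
  have hG1l : ∀ v v', |G1 v - G1 v'| ≤ 2 / d * |v - v'| := avg_lip hd0 hm hG0
  have hG1z1 : ∀ v, v < 65 / 100 * B → G1 v = 0 := by
    intro v hv
    apply avg_zero hd0
    intro x h1 h2
    apply hsupp
    rintro ⟨h3, h4⟩
    linarith
  have hG1z2 : ∀ v, 32 / 10 * B ≤ v → G1 v = 0 := by
    intro v hv
    apply avg_zero hd0
    intro x h1 h2
    apply hsupp
    rintro ⟨h3, h4⟩
    linarith
  -- logarithmic coordinate
  set F : ℝ → ℝ := fun s => G1 (Real.exp s) with hF
  have hFb : ∀ s, |F s| ≤ 1 := fun s => hG1b _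
  have hFmin : ∀ s, F s = G1 (Real.exp (min s (Real.log (4 * B)))) := by
    intro s
    rcases le_total s (Real.log (4 * B)) with h | h
    · rw [min_eq_left h]
    · rw [min_eq_right h, Real.exp_log (by positivity)]
      have h1 : 4 * B ≤ Real.exp s := by
        rw [← Real.exp_log (by positivity : 0 < 4 * B)]
        exact Real.exp_le_exp.mpr h
      rw [hG1z2 (4 * B) (by linarith)]
      exact hG1z2 _ (by linarith)
  have hexp : ∀ s s', s ≤ s' → s' ≤ Real.log (4 * B) →
      |Real.exp s - Real.exp s'| ≤ 4 * B * |s - s'| := by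
    intro s s' h1 h2
    rw [abs_sub_comm, abs_of_nonneg (by linarith [Real.exp_le_exp.mpr h1]), abs_sub_comm,
      abs_of_nonneg (by linarith : 0 ≤ s' - s)]
    have h3 : Real.exp s' ≤ 4 * B := by
      rw [← Real.exp_log (by positivity : 0 < 4 * B)]
      exact Real.exp_le_exp.mpr h2
    have h4 : Real.exp s' - Real.exp s = Real.exp s' * (1 - Real.exp (s - s')) := by
      rw [mul_sub, ← Real.exp_add]; ring_nf
    rw [h4]
    have h5 : s - s' + 1 ≤ Real.exp (s - s') := Real.add_one_le_exp _
    have h6 : 0 < Real.exp s' := Real.exp_pos _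
    calc Real.exp s' * (1 - Real.exp (s - s')) ≤ Real.exp s' * (s' - s) := by
          apply mul_le_mul_of_nonneg_left _ h6.le
          linarith
      _ ≤ 4 * B * (s' - s) := by
          apply mul_le_mul_of_nonneg_right h3
          linarith
  have hFl : ∀ s s', |F s - F s'| ≤ 8 * B / d * |s - s'| := by
    have key : ∀ s s', s ≤ s' → |F s - F s'| ≤ 8 * B / d * |s - s'| := by
      intro s s' h
      rw [hFmin s, hFmin s']
      refine (hG1l _ _).trans ?_
      have h1 := hexp (min s (Real.log (4 * B))) (min s' (Real.log (4 * B)))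
        (min_le_min_right _ h) (min_le_right _ _)
      have h2 : |min s (Real.log (4 * B)) - min s' (Real.log (4 * B))| ≤ |s - s'| :=
        abs_min_sub_min_le_max _ _ _ _ |>.trans (by simp)
      calc 2 / d * |Real.exp (min s (Real.log (4 * B))) - Real.exp (min s' (Real.log (4 * B)))|
          ≤ 2 / d * (4 * B * |s - s'|) := by
            gcongr
            exact h1.trans (by gcongr)
        _ = 8 * B / d * |s - s'| := by ring
    intro s s'
    rcases le_total s s' with h | h
    · exact key s s' h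
    · rw [abs_sub_comm (F s), abs_sub_comm s]
      exact key s' s h
  have hFc : Continuous F := by
    rw [Metric.continuous_iff]
    intro b ε hε
    refine ⟨ε / (8 * B / d + 1), by positivity, ?_⟩
    intro a ha
    rw [Real.dist_eq] at ha ⊢
    refine lt_of_le_of_lt (hFl a b) ?_
    have hp : 0 < 8 * B / d := by positivity
    calc 8 * B / d * |a - b| ≤ (8 * B / d + 1) * |a - b| := by
          apply mul_le_mul_of_nonneg_right _ (abs_nonneg _)
          linarith
      _ < (8 * B / d + 1) * (ε / (8 * B / d + 1)) := by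
          apply mul_lt_mul_of_pos_left ha
          positivity
      _ = ε := by field_simp
  have hFz1 : ∀ s, s < Real.log (65 / 100 * B) → F s = 0 := by
    intro s hs
    apply hG1z1
    rw [← Real.exp_log (by positivity : 0 < 65 / 100 * B)]
    exact Real.exp_lt_exp.mpr hs
  have hFz2 : ∀ s, Real.log (32 / 10 * B) ≤ s → F s = 0 := by
    intro s hs
    apply hG1z2
    rw [← Real.exp_log (by positivity : 0 < 32 / 10 * B)]
    exact Real.exp_le_exp.mpr hs
  -- the second smoothing
  have hh0 : 0 < 1 / ℓ := by positivity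
  have hh1 : 1 / ℓ ≤ 1 / 10 := by
    apply one_div_le_one_div_of_le (by norm_num) hℓ
  set A : ℝ → ℝ := cav F (1 / ℓ) with hA
  have hAb : ∀ s, |A s| ≤ 1 := fun s => avg_le hh0 hFb _
  have hAl : ∀ s s', |A s - A s'| ≤ 2 * ℓ * |s - s'| := by
    intro s s'
    have := avg_lip hh0 hFc.measurable hFb (s - 1 / ℓ / 2) (s' - 1 / ℓ / 2)
    rw [show s - 1 / ℓ / 2 - (s' - 1 / ℓ / 2) = s - s' by ring,
      show 2 / (1 / ℓ) = 2 * ℓ by field_simp] at this
    exact this
  have hlog1 : Real.log (B / 2) + 1 / 20 < Real.log (65 / 100 * B) := by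
    have e : 65 / 100 * B = B / 2 * (13 / 10) := by ring
    rw [e, Real.log_mul (by positivity) (by norm_num)]
    have : (1 : ℝ) / 20 < Real.log (13 / 10) := by
      rw [Real.lt_log_iff_exp_lt (by norm_num)]
      have h7 := Real.exp_bound_div_one_sub_of_interval' (x := 1 / 20) (by norm_num) (by norm_num)
      refine h7.trans_le ?_
      norm_num
    linarith
  have hlog2 : Real.log (32 / 10 * B) + 1 / 20 ≤ Real.log (4 * B) := by
    have e : 4 * B = 32 / 10 * B * (5 / 4) := by ring
    rw [e, Real.log_mul (x := 32 / 10 * B) (y := 5 / 4) (by positivity) (by norm_num)]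
    have : (1 : ℝ) / 20 < Real.log (5 / 4) := by
      rw [Real.lt_log_iff_exp_lt (by norm_num)]
      have h7 := Real.exp_bound_div_one_sub_of_interval' (x := 1 / 20) (by norm_num) (by norm_num)
      refine h7.trans_le ?_
      norm_num
    linarith
  have hAz1 : ∀ s, s ≤ Real.log (B / 2) → A s = 0 := by
    intro s hs
    apply avg_zero hh0
    intro x h1 h2
    apply hFz1
    linarith
  have hAz2 : ∀ s, Real.log (4 * B) ≤ s → A s = 0 := by
    intro s hs
    apply avg_zero hh0
    intro x h1 h2
    apply hFz2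
    linarith
  have hGA : ∀ v, 0 < v → A (Real.log (max v (B / 2))) = A (Real.log v) := by
    intro v hv
    rcases le_total (B / 2) v with h | h
    · rw [max_eq_left h]
    · rw [max_eq_right h, hAz1 _ le_rfl, hAz1 _ (Real.log_le_log hv h)]
  refine ⟨fun s => F s - A s, fun v => A (Real.log (max v (B / 2))), ?_, ?_, ?_, ?_, ?_, ?_, ?_, ?_⟩
  · intro s
    have h1 := hFb s
    have h2 := hAb s
    have h3 := abs_sub (F s) (A s)
    simp only
    linarith
  · intro s s'
    have h1 := hFl s s'
    have h2 := hAl s s'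
    have h3 : |F s - A s - (F s' - A s')| ≤ |F s - F s'| + |A s - A s'| := by
      rw [show F s - A s - (F s' - A s') = (F s - F s') - (A s - A s') by ring]
      exact abs_sub _ _
    simp only
    have h4 : 0 ≤ |s - s'| := abs_nonneg _
    have h5 : 8 * (B / d + ℓ) * |s - s'| = 8 * B / d * |s - s'| + 8 * ℓ * |s - s'| := by ring
    rw [h5]
    nlinarith [mul_nonneg hℓ0.le h4]
  · intro s hs
    simp only
    rw [not_and_or, not_le, not_le] at hs
    rcases hs with h | h
    · rw [hFz1 s (by linarith), hAz1 s h.le, sub_zero]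
    · rw [hFz2 s (by linarith), hAz2 s h.le, sub_zero]
  · intro s1 s2 _
    exact cav_int hh0 hFc hFb s1 s2
  · intro v
    exact hAb _
  · intro v v'
    refine (hAl _ _).trans ?_
    have key : ∀ x y : ℝ, B / 2 ≤ x → x ≤ y → Real.log y - Real.log x ≤ (y - x) / (B / 2) := by
      intro x y hx hxy
      have hx0 : 0 < x := by linarith
      rw [← Real.log_div (by linarith) (by linarith)]
      have hy0 : 0 < y := by linarith
      refine (Real.log_le_sub_one_of_pos (by positivity)).trans ?_
      rw [show y / x - 1 = (y - x) / x by field_simp]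
      apply div_le_div_of_nonneg_left _ (by positivity) hx
      linarith
    have key2 : |Real.log (max v (B / 2)) - Real.log (max v' (B / 2))|
        ≤ |max v (B / 2) - max v' (B / 2)| / (B / 2) := by
      rcases le_total (max v (B / 2)) (max v' (B / 2)) with h | h
      · rw [abs_sub_comm, abs_of_nonneg (sub_nonneg.mpr (Real.log_le_log (by
          refine lt_of_lt_of_le ?_ (le_max_right _ _)
          positivity) h)), abs_sub_comm, abs_of_nonneg (sub_nonneg.mpr h)]
        exact key _ _ (le_max_right _ _) h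
      · rw [abs_of_nonneg (sub_nonneg.mpr (Real.log_le_log (by
          refine lt_of_lt_of_le ?_ (le_max_right _ _)
          positivity) h)), abs_of_nonneg (sub_nonneg.mpr h)]
        exact key _ _ (le_max_right _ _) h
    have key3 : |max v (B / 2) - max v' (B / 2)| ≤ |v - v'| :=
      abs_max_sub_max_le_max _ _ _ _ |>.trans (by simp)
    calc 2 * ℓ * |Real.log (max v (B / 2)) - Real.log (max v' (B / 2))|
        ≤ 2 * ℓ * (|v - v'| / (B / 2)) := by
          gcongr
          exact key2.trans (by gcongr)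
      _ = 4 * ℓ * |v - v'| / B := by field_simp; ring
      _ ≤ 8 * ℓ * |v - v'| / B := by
          gcongr
          norm_num
  · intro v hv
    simp only
    rw [hGA v hv]
    simp only [add_sub_cancel]
    exact hFb _
  · intro v hv hk
    simp only
    rw [hGA v hv]
    simp only [add_sub_cancel]
    have h1 : F (Real.log v) = G1 v := by
      simp only [hF]
      rw [Real.exp_log hv]
    rw [h1]
    symm
    apply avg_const hd0
    intro x hx1 hx2
    apply hcell
    -- same cell
    set k : ℤ := ⌊(v - σ) / H⌋ with hkdef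
    rw [Int.floor_eq_iff]
    have hk1 : (k : ℝ) ≤ (v - σ) / H := Int.floor_le _
    have hk2 : (v - σ) / H < k + 1 := Int.lt_floor_add_one _
    rw [le_div_iff₀ hH] at hk1
    rw [div_lt_iff₀ hH] at hk2
    have hk3 := hk (k + 1)
    push_cast at hk3
    rw [abs_sub_comm, show (((k : ℝ) + 1) * H) - (v - σ) = (k + 1) * H - (v - σ) from rfl,
      abs_of_nonneg (by linarith)] at hk3
    constructor
    · rw [le_div_iff₀ hH]
      linarith
    · rw [div_lt_iff₀ hH]
      linarith

end Pool.Agent.N558.QL
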